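import Pool.Agent.TH501.HHF.Surplus

set_option autoImplicit false

namespace Pool.Agent.Results.MP_5aaf1b_ag.EveryField

open MvPolynomial

/-- the homogeneous ideal of the point of projective `n`-space with homogeneous coordinates `q` -/
noncomputable def pointIdeal {K : Type*} [Field K] {n : ℕ} (q : Fin (n + 1) → K) :
    Ideal (MvPolynomial (Fin (n + 1)) K) :=
  Ideal.span (Set.range (fun jl : Fin (n + 1) × Fin (n + 1) =>
    (X jl.1 * C (q jl.2) - X jl.2 * C (q jl.1) : MvPolynomial (Fin (n + 1)) K)))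

/-- the fat points ideal `⋂ I(p i)^(m i)` -/
noncomputable def fatIdeal {K : Type*} [Field K] {n s : ℕ} (p : Fin s → Fin (n + 1) → K)
    (m : Fin s → ℕ) : Ideal (MvPolynomial (Fin (n + 1)) K) :=
  ⨅ i : Fin s, pointIdeal (p i) ^ (m i)

/-- the ideal generated by the variables -/
noncomputable def irrelevant (K : Type*) [Field K] (n : ℕ) :
    Ideal (MvPolynomial (Fin (n + 1)) K) :=
  Ideal.span (Set.range (fun j : Fin (n + 1) => (X j : MvPolynomial (Fin (n + 1)) K)))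

section

variable {K : Type*} [Field K] {n s : ℕ}

/-- dropping the points of multiplicity zero -/
theorem reduce (p : Fin s → Fin (n + 1) → K) (hp : ∀ i, p i ≠ 0) (a m : Fin s → ℕ) (r e : ℕ)
    (s' : ℕ) (f : Fin s' → Fin s) (hf : ∀ i, m i ≠ 0 → ∃ j, f j = i)
    (H : (⨅ j, Pool.Agent.H737R3.linI (p (f j)) ^ (a (f j))) ≤
      Pool.Agent.H737R3.Cont.irr K n ^ e *
        (⨅ j, Pool.Agent.H737R3.linI (p (f j)) ^ (m (f j))) ^ r) :
    fatIdeal p a ≤ irrelevant K n ^ e * fatIdeal p m ^ r := by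
  have hl : ∀ i, pointIdeal (p i) = Pool.Agent.H737R3.linI (p i) :=
    fun i => Pool.Agent.H737R3.span_eq_linI (hp i)
  unfold fatIdeal
  simp only [hl]
  intro F hF
  rw [Submodule.mem_iInf] at hF
  have h4 : F ∈ ⨅ j, Pool.Agent.H737R3.linI (p (f j)) ^ (a (f j)) := by
    rw [Submodule.mem_iInf]
    intro j
    exact hF (f j)
  have h5 := H h4
  refine Ideal.mul_mono_right (Ideal.pow_right_mono ?_ r) h5
  refine le_iInf fun i => ?_
  by_cases hi : m i = 0
  · rw [hi, pow_zero, Ideal.one_eq_top]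
    exact le_top
  · obtain ⟨j, rfl⟩ := hf i hi
    exact iInf_le _ j

/-- enumerating the points of nonzero multiplicity -/
theorem exists_enum (m : Fin s → ℕ) (hm : ∃ i, m i ≠ 0) :
    ∃ (s' : ℕ) (f : Fin s' → Fin s), 0 < s' ∧ (∀ j, m (f j) ≠ 0) ∧
      ∀ i, m i ≠ 0 → ∃ j, f j = i := by
  classical
  obtain ⟨i₀, hi₀⟩ := hm
  set S := {i : Fin s // m i ≠ 0} with hS
  let f : Fin (Fintype.card S) ≃ S := (Fintype.equivFin S).symm
  exact ⟨Fintype.card S, fun j => f j, Fintype.card_pos_iff.2 ⟨⟨i₀, hi₀⟩⟩, fun j => (f j).2,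
    fun i hi => ⟨f.symm ⟨i, hi⟩, by simp⟩⟩

end

/-- **The Harbourne-Huneke containment over arbitrary fields.** Let `K` be any field, `n ≥ 2`,
`I = ⋂ I(p i)^(m i)` a fat points ideal with at least one nonzero multiplicity, and `r ≥ 1`. Then
`I^(r n) = ⋂ I(p i)^(r n (m i)) ⊆ M^(r (n - 1)) I^r` in each of the following cases:

* all nonzero multiplicities are at least `n` (so for `n = 2` there are no reduced points);
* `n = 4` and all nonzero multiplicities are at least `3`;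
* `n ≥ 5` and all nonzero multiplicities are at least `4`;
* `r = 1` and all nonzero multiplicities are at least `n - 1` (so `n = 2` and `I` is arbitrary). -/
theorem result (K : Type*) [Field K] (n : ℕ) (hn : 2 ≤ n) (s : ℕ) (p : Fin s → Fin (n + 1) → K)
    (hp : ∀ i, p i ≠ 0) (m : Fin s → ℕ) (hm : ∃ i, m i ≠ 0) (r : ℕ) (hr : 1 ≤ r)
    (h : (∀ i, m i ≠ 0 → n ≤ m i) ∨ (n = 4 ∧ ∀ i, m i ≠ 0 → 3 ≤ m i) ∨
      (5 ≤ n ∧ ∀ i, m i ≠ 0 → 4 ≤ m i) ∨ (r = 1 ∧ ∀ i, m i ≠ 0 → n - 1 ≤ m i)) :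
    fatIdeal p (fun i => r * n * m i) ≤ irrelevant K n ^ (r * (n - 1)) * fatIdeal p m ^ r := by
  obtain ⟨s', f, hs', hf0, hf⟩ := exists_enum m hm
  apply reduce p hp _ m r _ s' f hf
  have hP : ∀ j, p (f j) ≠ 0 := fun j => hp _
  rcases h with h | ⟨rfl, h⟩ | ⟨hn5, h⟩ | ⟨rfl, h⟩
  · -- multiplicities at least `n`
    refine Pool.Agent.TH501.HHF.powSurplusAny hn hs' _ hP (n - 1) _ _ hr fun j => ?_
    have h1 := h _ (hf0 j)
    rw [mul_assoc]
    apply Nat.mul_le_mul_left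
    obtain ⟨n', rfl⟩ : ∃ n', n = n' + 1 := ⟨n - 1, by omega⟩
    obtain ⟨a, ha⟩ : ∃ a, m (f j) = a + (n' + 1) := ⟨m (f j) - (n' + 1), by omega⟩
    rw [ha]
    have e1 : a + (n' + 1) + (n' + 1 - 1) * (n' + 1 - 1) + (n' + 1) - 1 =
        a + (n' + 1) + n' * n' + n' := by
      rw [Nat.add_sub_cancel]
      omega
    rw [e1]
    nlinarith [Nat.zero_le (a * n')]
  · -- `n = 4`
    refine Pool.Agent.TH501.HHF.splitting (by omega) _ hP _ (fun j => 2 * m (f j) - 3) _
      r 1 r _ ⟨0, hs'⟩ hr le_rfl ?_ ?_ ?_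
    · intro j
      have := h _ (hf0 j)
      omega
    · intro j
      have h5 := h _ (hf0 j)
      obtain ⟨a, ha⟩ : ∃ a, m (f j) = a + 3 := ⟨m (f j) - 3, by omega⟩
      show (r * 1 + r) * (2 * m (f j) - 3 + 4 - 1) ≤ r * 4 * m (f j)
      rw [ha]
      have e1 : 2 * (a + 3) - 3 + 4 - 1 = 2 * (a + 3) := by omega
      rw [e1]
      nlinarith
    · have := h _ (hf0 ⟨0, hs'⟩)
      apply Nat.mul_le_mul_left
      show 4 - 1 ≤ 2 * m (f ⟨0, hs'⟩) - 3
      omega
  · -- `n ≥ 5`, multiplicities at least four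
    have aux : ∀ j, m (f j) + (n - 1) ≤ n * m (f j) / 2 ∧ 2 * (n - 1) ≤ n * m (f j) / 2 := by
      intro j
      have h4 := h _ (hf0 j)
      obtain ⟨n', rfl⟩ : ∃ n', n = n' + 3 := ⟨n - 3, by omega⟩
      obtain ⟨a, ha⟩ : ∃ a, m (f j) = a + 4 := ⟨m (f j) - 4, by omega⟩
      rw [ha]
      have e1 : (n' + 3) * (a + 4) = n' * a + 4 * n' + 3 * a + 12 := by ring
      rw [e1]
      constructor
      · rw [Nat.le_div_iff_mul_le (by norm_num)]
        omega
      · rw [Nat.le_div_iff_mul_le (by norm_num)]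
        omega
    refine Pool.Agent.TH501.HHF.splitting (by omega) _ hP _
      (fun j => n * m (f j) / 2 - (n - 1)) _ r 1 r _ ⟨0, hs'⟩ hr le_rfl ?_ ?_ ?_
    · intro j
      have := (aux j).1
      show m (f j) ≤ 1 * (n * m (f j) / 2 - (n - 1))
      omega
    · intro j
      have h5 := (aux j).1
      have h6 : n * m (f j) / 2 - (n - 1) + n - 1 = n * m (f j) / 2 := by omega
      show (r * 1 + r) * (n * m (f j) / 2 - (n - 1) + n - 1) ≤ r * n * m (f j)
      rw [h6]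
      have h7 : n * m (f j) / 2 * 2 ≤ n * m (f j) := Nat.div_mul_le_self _ _
      calc (r * 1 + r) * (n * m (f j) / 2) = r * (n * m (f j) / 2 * 2) := by ring
        _ ≤ r * (n * m (f j)) := Nat.mul_le_mul_left _ h7
        _ = r * n * m (f j) := by ring
    · have := (aux ⟨0, hs'⟩).2
      apply Nat.mul_le_mul_left
      show n - 1 ≤ n * m (f ⟨0, hs'⟩) / 2 - (n - 1)
      omega
  · -- `r = 1`
    have key := Pool.Agent.TH501.HHF.surplusAny hn hs' _ hP (n - 1) (fun j => m (f j))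
      (fun j => 1 * n * m (f j)) fun j => ?_
    · simpa only [one_mul, pow_one] using key
    · have h1 := h _ (hf0 j)
      obtain ⟨n', rfl⟩ : ∃ n', n = n' + 1 := ⟨n - 1, by omega⟩
      obtain ⟨a, ha⟩ : ∃ a, m (f j) = a + n' := ⟨m (f j) - n', by omega⟩
      show m (f j) + (n' + 1 - 1) * (n' + 1 - 1) ≤ 1 * (n' + 1) * m (f j)
      rw [ha, Nat.add_sub_cancel]
      nlinarith [Nat.zero_le (a * n')]

end Pool.Agent.Results.MP_5aaf1b_ag.EveryField
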